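import Pool.Agent.H724.DL.Stm

set_option autoImplicit false

namespace Pool.Agent.H390.DL

open Pool.Agent.H724.DL

section

variable {Γ W : Type} (R : RS Γ W) (n : ℕ) (X Y : ℕ → Pay Γ) (i0 j0 : ℕ)

theorem drun_vis {t : ℕ} {d : DS W} {c : Fin (n + 2)} (h : drun R n X Y i0 j0 t = some (d, c))
    (hne : (X (i0 + t)).u ≠ (Y (j0 + t)).u) (hnn : drun R n X Y i0 j0 (t + 1) ≠ none) :
    ∃ d', vstep R d (X (i0 + t)) (Y (j0 + t)) = some d' ∧
      drun R n X Y i0 j0 (t + 1) = some (d', 0) := by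
  have h1 : drun R n X Y i0 j0 (t + 1) =
      (vstep R d (X (i0 + t)) (Y (j0 + t))).map fun d => (d, (0 : Fin (n + 2))) := by
    show dn R n (drun R n X Y i0 j0 t) (X (i0 + t)) (Y (j0 + t)) = _
    rw [h]
    simp only [dn, dstep, if_neg hne, Option.bind_some, Option.map_map]
    rfl
  cases hv : vstep R d (X (i0 + t)) (Y (j0 + t)) with
  | none =>
    rw [h1, hv] at hnn
    exact absurd rfl hnn
  | some d' =>
    refine ⟨d', rfl, ?_⟩
    rw [h1, hv]
    rfl

end

theorem ite_none {α : Type} {c : Prop} [Decidable c] {a b : α}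
    (h : (if c then none else some a) = some b) : ¬ c ∧ a = b := by
  by_cases hc : c
  · rw [if_pos hc] at h
    cases h
  · rw [if_neg hc] at h
    exact ⟨hc, Option.some.inj h⟩

theorem lock (hs : S_SEG) (hl : S_LET) : S_LOCK := by
  intro Γ W R n X Y m al be N i0 j0 hnn hX hY hNi hNj hi hj p q hp hq
  have hτ : 0 < 5 ^ m := pow5_pos m
  have hLET := hl Γ X Y m al be N i0 j0 hX hY hNi hNj hi hj
  -- quiet segments
  have quiet : ∀ k s : ℕ, ∀ d c,
      drun R n X Y i0 j0 (k * 5 ^ (m + 1) + s * 5 ^ m + 1) = some (d, c) → noWin d →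
      drun R n X Y i0 j0 (k * 5 ^ (m + 1) + (s + 1) * 5 ^ m) = some (d, c) := by
    intro k s d c h hw
    have h1 := (hs Γ W R n X Y i0 j0 (k * 5 ^ (m + 1) + s * 5 ^ m + 1) (5 ^ m - 1)).1 (by
      intro t' h1 h2
      have h3 := (hLET k s).1 (t' - (k * 5 ^ (m + 1) + s * 5 ^ m)) (by omega) (by omega)
      have e : k * 5 ^ (m + 1) + s * 5 ^ m + (t' - (k * 5 ^ (m + 1) + s * 5 ^ m)) = t' := by omega
      rw [e] at h3
      exact h3) d c h hw
    have e : k * 5 ^ (m + 1) + s * 5 ^ m + 1 + (5 ^ m - 1) = k * 5 ^ (m + 1) + (s + 1) * 5 ^ m := by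
      rw [Nat.succ_mul]
      omega
    rw [e] at h1
    exact h1
  have win3 : ∀ k s : ℕ, ∀ lam P Q z,
      drun R n X Y i0 j0 (k * 5 ^ (m + 1) + s * 5 ^ m + 1) =
        some (.s3 lam P Q z (some R.w0), 0) →
      drun R n X Y i0 j0 (k * 5 ^ (m + 1) + (s + 1) * 5 ^ m) =
        some (.s3 lam P Q z (some (wwin R n false X Y (i0 + (k * 5 ^ (m + 1) + s * 5 ^ m))
          (j0 + (k * 5 ^ (m + 1) + s * 5 ^ m)) (5 ^ m - 1)).1),
          (wwin R n false X Y (i0 + (k * 5 ^ (m + 1) + s * 5 ^ m))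
          (j0 + (k * 5 ^ (m + 1) + s * 5 ^ m)) (5 ^ m - 1)).2) := by
    intro k s lam P Q z h
    have h1 := ((hs Γ W R n X Y i0 j0 (k * 5 ^ (m + 1) + s * 5 ^ m) (5 ^ m - 1)).2 (by
      intro t' h1 h2
      have h3 := (hLET k s).1 (t' - (k * 5 ^ (m + 1) + s * 5 ^ m)) (by omega) (by omega)
      have e : k * 5 ^ (m + 1) + s * 5 ^ m + (t' - (k * 5 ^ (m + 1) + s * 5 ^ m)) = t' := by omega
      rw [e] at h3
      exact h3) lam P Q z).1 h
    have e : k * 5 ^ (m + 1) + s * 5 ^ m + 1 + (5 ^ m - 1) = k * 5 ^ (m + 1) + (s + 1) * 5 ^ m := by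
      rw [Nat.succ_mul]
      omega
    rw [e] at h1
    exact h1
  have win5 : ∀ k s : ℕ, ∀ lam P Q z,
      drun R n X Y i0 j0 (k * 5 ^ (m + 1) + s * 5 ^ m + 1) =
        some (.s5 lam P Q z (some R.w0), 0) →
      drun R n X Y i0 j0 (k * 5 ^ (m + 1) + (s + 1) * 5 ^ m) =
        some (.s5 lam P Q z (some (wwin R n true X Y (i0 + (k * 5 ^ (m + 1) + s * 5 ^ m))
          (j0 + (k * 5 ^ (m + 1) + s * 5 ^ m)) (5 ^ m - 1)).1),
          (wwin R n true X Y (i0 + (k * 5 ^ (m + 1) + s * 5 ^ m))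
          (j0 + (k * 5 ^ (m + 1) + s * 5 ^ m)) (5 ^ m - 1)).2) := by
    intro k s lam P Q z h
    have h1 := ((hs Γ W R n X Y i0 j0 (k * 5 ^ (m + 1) + s * 5 ^ m) (5 ^ m - 1)).2 (by
      intro t' h1 h2
      have h3 := (hLET k s).1 (t' - (k * 5 ^ (m + 1) + s * 5 ^ m)) (by omega) (by omega)
      have e : k * 5 ^ (m + 1) + s * 5 ^ m + (t' - (k * 5 ^ (m + 1) + s * 5 ^ m)) = t' := by omega
      rw [e] at h3
      exact h3) lam P Q z).2 h
    have e : k * 5 ^ (m + 1) + s * 5 ^ m + 1 + (5 ^ m - 1) = k * 5 ^ (m + 1) + (s + 1) * 5 ^ m := by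
      rw [Nat.succ_mul]
      omega
    rw [e] at h1
    exact h1
  -- one round
  have round : ∀ k : ℕ, drun R n X Y i0 j0 (k * 5 ^ (m + 1) + 1) =
        some (.s1 (m : ZMod 3) (pset m p k) (pset m q k), 0) →
      (pset m p (k + 1) ≠ ∅ ∧ pset m q (k + 1) ≠ ∅ ∧
      (X (i0 + k * 5 ^ (m + 1) + 3 * 5 ^ m)).pd = (p k).2 ∧
      (Y (j0 + k * 5 ^ (m + 1) + 5 * 5 ^ m)).pd = (q k).2 ∧
      (pset m p (k + 1) = {2} →
        R.bad (wwin R n false X Y (i0 + k * 5 ^ (m + 1) + 2 * 5 ^ m)
          (j0 + k * 5 ^ (m + 1) + 2 * 5 ^ m) (5 ^ m - 1)).1 = false) ∧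
      (pset m q (k + 1) = {3} →
        R.bad (wwin R n true X Y (i0 + k * 5 ^ (m + 1) + 4 * 5 ^ m)
          (j0 + k * 5 ^ (m + 1) + 4 * 5 ^ m) (5 ^ m - 1)).1 = false)) ∧
      drun R n X Y i0 j0 ((k + 1) * 5 ^ (m + 1) + 1) =
        some (.s1 (m : ZMod 3) (pset m p (k + 1)) (pset m q (k + 1)), 0) := by
    intro k hk
    set A := k * 5 ^ (m + 1) with hA
    set τ := 5 ^ m with hτd
    have hXs : ∀ s : ℕ, (3 + s) % 5 ≠ 0 → (X (i0 + (A + s * τ))).u = ((m : ZMod 3), ((3 + s : ℕ) : ZMod 5)) :=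
      fun s h => (hLET k s).2.1 h
    have hYs : ∀ s : ℕ, (1 + s) % 5 ≠ 0 → (Y (j0 + (A + s * τ))).u = ((m : ZMod 3), ((1 + s : ℕ) : ZMod 5)) :=
      fun s h => (hLET k s).2.2 h
    have hpk : (X (i0 + (A + 2 * τ))).u = p k := by rw [hp k, ← Nat.add_assoc]
    have hqk : (Y (j0 + (A + 4 * τ))).u = q k := by rw [hq k, ← Nat.add_assoc]
    have x1 : (X (i0 + (A + 1 * τ))).u = ((m : ZMod 3), 4) := by
      rw [hXs 1 (by norm_num)]; rfl
    have y1 : (Y (j0 + (A + 1 * τ))).u = ((m : ZMod 3), 2) := by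
      rw [hYs 1 (by norm_num)]; rfl
    have y2 : (Y (j0 + (A + 2 * τ))).u = ((m : ZMod 3), 3) := by
      rw [hYs 2 (by norm_num)]; rfl
    have x3 : (X (i0 + (A + 3 * τ))).u = ((m : ZMod 3), 1) := by
      rw [hXs 3 (by norm_num)]; rfl
    have y3 : (Y (j0 + (A + 3 * τ))).u = ((m : ZMod 3), 4) := by
      rw [hYs 3 (by norm_num)]; rfl
    have x4 : (X (i0 + (A + 4 * τ))).u = ((m : ZMod 3), 2) := by
      rw [hXs 4 (by norm_num)]; rfl
    have x5 : (X (i0 + (A + 5 * τ))).u = ((m : ZMod 3), 3) := by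
      rw [hXs 5 (by norm_num)]; rfl
    have y5 : (Y (j0 + (A + 5 * τ))).u = ((m : ZMod 3), 1) := by
      rw [hYs 5 (by norm_num)]; rfl
    have d53 : ((m : ZMod 3), (4 : ZMod 5)) ≠ ((m : ZMod 3), 2) := fun h => absurd (Prod.mk.inj h).2 (by decide)
    have d14 : ((m : ZMod 3), (1 : ZMod 5)) ≠ ((m : ZMod 3), 4) := fun h => absurd (Prod.mk.inj h).2 (by decide)
    have d43 : ((m : ZMod 3), (4 : ZMod 5)) ≠ ((m : ZMod 3), 3) := fun h => absurd (Prod.mk.inj h).2 (by decide)
    have d31 : ((m : ZMod 3), (3 : ZMod 5)) ≠ ((m : ZMod 3), 1) := fun h => absurd (Prod.mk.inj h).2 (by decide)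
    have d32 : ((m : ZMod 3), (3 : ZMod 5)) ≠ ((m : ZMod 3), 2) := fun h => absurd (Prod.mk.inj h).2 (by decide)
    -- time A + τ
    have t1 : drun R n X Y i0 j0 (A + 1 * τ) = some (.s1 (m : ZMod 3) (pset m p k) (pset m q k), 0) := by
      have h0 : k * 5 ^ (m + 1) + 0 * 5 ^ m + 1 = A + 1 := by rw [Nat.zero_mul, Nat.add_zero]
      exact quiet k 0 (.s1 (m : ZMod 3) (pset m p k) (pset m q k)) 0
        ((congrArg (drun R n X Y i0 j0) h0).trans hk) trivial
    obtain ⟨d1, hd1, t1'⟩ := drun_vis R n X Y i0 j0 t1 (by rw [x1, y1]; exact d53) (hnn _)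
    have e1 : d1 = .s2 (m : ZMod 3) (pset m p k) (pset m q k) := by
      simp only [vstep, x1, y1, and_self, if_true, Option.some.injEq] at hd1
      exact hd1.symm
    subst e1
    have t2 : drun R n X Y i0 j0 (A + 2 * τ) = _ := quiet k 1 _ _ t1' trivial
    -- the first half: time A + 3 τ + 1
    have half1 : drun R n X Y i0 j0 (A + 3 * τ + 1) =
          some (.s4 (m : ZMod 3) (pset m p (k + 1)) (pset m q k), 0) ∧ pset m p (k + 1) ≠ ∅ ∧
        (X (i0 + (A + 3 * τ))).pd = (p k).2 ∧ (pset m p (k + 1) = {2} →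
        R.bad (wwin R n false X Y (i0 + (A + 2 * τ)) (j0 + (A + 2 * τ)) (τ - 1)).1 = false) := by
      by_cases hc : p k = ((m : ZMod 3), 3)
      · -- invisible
        have t2' : drun R n X Y i0 j0 (A + 2 * τ + 1) =
            some (.s2 (m : ZMod 3) (pset m p k) (pset m q k), 0) := by
          refine (hs Γ W R n X Y i0 j0 (A + 2 * τ) 1).1 ?_ _ _ t2 trivial
          intro t' h1 h2
          have : t' = A + 2 * τ := by omega
          rw [this, hpk, y2, hc]
        have t3 : drun R n X Y i0 j0 (A + 3 * τ) = _ := quiet k 2 _ _ t2' trivial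
        obtain ⟨d3, hd3, t3'⟩ := drun_vis R n X Y i0 j0 t3 (by rw [x3, y3]; exact d14) (hnn _)
        simp only [vstep, x3, y3, if_neg d43, and_self, if_true] at hd3
        obtain ⟨h1, hd3⟩ := ite_none hd3
        rw [not_or, not_ne_iff] at h1
        have hps : pset m p (k + 1) = upd m (pset m p k) ((m : ZMod 3), 3) := by
          rw [pset, hc]
        rw [hps]
        refine ⟨?_, h1.1, ?_, ?_⟩
        · rw [hd3]; exact t3'
        · rw [h1.2, hc]
        · intro h2
          exfalso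
          have h3 : (2 : ZMod 5) ∈ upd (m : ZMod 3) (pset m p k) ((m : ZMod 3), 3) := by
            rw [h2]; exact Finset.mem_singleton_self _
          rw [mem_upd] at h3
          rcases h3.2 with h4 | h4
          · exact absurd h4 (by decide)
          · exact absurd (Prod.mk.inj h4).2 (by decide)
      · -- visible
        obtain ⟨d2, hd2, t2'⟩ := drun_vis R n X Y i0 j0 t2 (by rw [hpk, y2]; exact hc) (hnn _)
        simp only [vstep, hpk, y2, if_true] at hd2
        split_ifs at hd2 with h1 h2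
        all_goals simp only [Option.some.injEq] at hd2
        · -- active window
          have hps : pset m p (k + 1) = upd m (pset m p k) (p k) := rfl
          rw [hps]
          rw [← hd2] at t2'
          have t3 : drun R n X Y i0 j0 (A + 3 * τ) = _ := win3 k 2 _ _ _ _ t2'
          obtain ⟨d3, hd3, t3'⟩ := drun_vis R n X Y i0 j0 t3 (by rw [x3, y3]; exact d14) (hnn _)
          simp only [vstep, x3, y3, and_self, if_true, wbad] at hd3
          obtain ⟨h3, hd3⟩ := ite_none hd3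
          rw [not_or, not_ne_iff] at h3
          refine ⟨?_, h1, h3.1, fun _ => ?_⟩
          · rw [hd3]; exact t3'
          · exact Bool.eq_false_iff.2 h3.2
        · have hps : pset m p (k + 1) = upd m (pset m p k) (p k) := rfl
          rw [hps]
          rw [← hd2] at t2'
          have t3 : drun R n X Y i0 j0 (A + 3 * τ) = _ := quiet k 2 _ _ t2' trivial
          obtain ⟨d3, hd3, t3'⟩ := drun_vis R n X Y i0 j0 t3 (by rw [x3, y3]; exact d14) (hnn _)
          simp only [vstep, x3, y3, and_self, if_true, wbad] at hd3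
          obtain ⟨h3, hd3⟩ := ite_none hd3
          rw [not_or, not_ne_iff] at h3
          refine ⟨?_, h1, h3.1, fun h4 => absurd h4 h2⟩
          rw [hd3]; exact t3'
    obtain ⟨t3', hP1, hP2, hP3⟩ := half1
    have t4 : drun R n X Y i0 j0 (A + 4 * τ) = _ := quiet k 3 _ _ t3' trivial
    have half2 : drun R n X Y i0 j0 (A + 5 * τ + 1) =
          some (.s1 (m : ZMod 3) (pset m p (k + 1)) (pset m q (k + 1)), 0) ∧ pset m q (k + 1) ≠ ∅ ∧
        (Y (j0 + (A + 5 * τ))).pd = (q k).2 ∧ (pset m q (k + 1) = {3} →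
        R.bad (wwin R n true X Y (i0 + (A + 4 * τ)) (j0 + (A + 4 * τ)) (τ - 1)).1 = false) := by
      by_cases hc : q k = ((m : ZMod 3), 2)
      · -- invisible
        have t4' : drun R n X Y i0 j0 (A + 4 * τ + 1) =
            some (.s4 (m : ZMod 3) (pset m p (k + 1)) (pset m q k), 0) := by
          refine (hs Γ W R n X Y i0 j0 (A + 4 * τ) 1).1 ?_ _ _ t4 trivial
          intro t' h1 h2
          have : t' = A + 4 * τ := by omega
          rw [this, hqk, x4, hc]
        have t5 : drun R n X Y i0 j0 (A + 5 * τ) = _ := quiet k 4 _ _ t4' trivial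
        obtain ⟨d5, hd5, t5'⟩ := drun_vis R n X Y i0 j0 t5 (by rw [x5, y5]; exact d31) (hnn _)
        simp only [vstep, x5, y5, if_neg d32, and_self, if_true] at hd5
        obtain ⟨h1, hd5⟩ := ite_none hd5
        rw [not_or, not_ne_iff] at h1
        have hps : pset m q (k + 1) = upd m (pset m q k) ((m : ZMod 3), 2) := by
          rw [pset, hc]
        rw [hps]
        refine ⟨?_, h1.1, ?_, ?_⟩
        · rw [hd5]; exact t5'
        · rw [h1.2, hc]
        · intro h2
          exfalso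
          have h3 : (3 : ZMod 5) ∈ upd (m : ZMod 3) (pset m q k) ((m : ZMod 3), 2) := by
            rw [h2]; exact Finset.mem_singleton_self _
          rw [mem_upd] at h3
          rcases h3.2 with h4 | h4
          · exact absurd h4 (by decide)
          · exact absurd (Prod.mk.inj h4).2 (by decide)
      · -- visible
        obtain ⟨d4, hd4, t4'⟩ := drun_vis R n X Y i0 j0 t4 (by
          rw [hqk, x4]; exact fun h => hc h.symm) (hnn _)
        simp only [vstep, hqk, x4, if_true] at hd4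
        split_ifs at hd4 with h1 h2
        all_goals simp only [Option.some.injEq] at hd4
        · -- active window
          have hps : pset m q (k + 1) = upd m (pset m q k) (q k) := rfl
          rw [hps]
          rw [← hd4] at t4'
          have t5 : drun R n X Y i0 j0 (A + 5 * τ) = _ := win5 k 4 _ _ _ _ t4'
          obtain ⟨d5, hd5, t5'⟩ := drun_vis R n X Y i0 j0 t5 (by rw [x5, y5]; exact d31) (hnn _)
          simp only [vstep, x5, y5, and_self, if_true, wbad] at hd5
          obtain ⟨h3, hd5⟩ := ite_none hd5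
          rw [not_or, not_ne_iff] at h3
          refine ⟨?_, h1, h3.1, fun _ => ?_⟩
          · rw [hd5]; exact t5'
          · exact Bool.eq_false_iff.2 h3.2
        · have hps : pset m q (k + 1) = upd m (pset m q k) (q k) := rfl
          rw [hps]
          rw [← hd4] at t4'
          have t5 : drun R n X Y i0 j0 (A + 5 * τ) = _ := quiet k 4 _ _ t4' trivial
          obtain ⟨d5, hd5, t5'⟩ := drun_vis R n X Y i0 j0 t5 (by rw [x5, y5]; exact d31) (hnn _)
          simp only [vstep, x5, y5, and_self, if_true, wbad] at hd5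
          obtain ⟨h3, hd5⟩ := ite_none hd5
          rw [not_or, not_ne_iff] at h3
          refine ⟨?_, h1, h3.1, fun h4 => absurd h4 h2⟩
          rw [hd5]; exact t5'
    obtain ⟨t5', hQ1, hQ2, hQ3⟩ := half2
    have eA : A + 5 * τ = (k + 1) * 5 ^ (m + 1) := by
      rw [hA, hτd, pow_succ]
      ring
    refine ⟨⟨hP1, hQ1, ?_, ?_, ?_, ?_⟩, ?_⟩
    · rw [Nat.add_assoc]; exact hP2
    · rw [Nat.add_assoc]; exact hQ2
    · rw [Nat.add_assoc, Nat.add_assoc]; exact hP3
    · rw [Nat.add_assoc, Nat.add_assoc]; exact hQ3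
    · rw [← eA]; exact t5'
  have main : ∀ k : ℕ, drun R n X Y i0 j0 (k * 5 ^ (m + 1) + 1) =
        some (.s1 (m : ZMod 3) (pset m p k) (pset m q k), 0) := by
    intro k
    induction k with
    | zero =>
      have x0 : (X (i0 + 0)).u = ((m : ZMod 3), 3) := by
        have := (hLET 0 0).2.1 (by norm_num)
        simpa using this
      have y0 : (Y (j0 + 0)).u = ((m : ZMod 3), 1) := by
        have := (hLET 0 0).2.2 (by norm_num)
        simpa using this
      have d31 : ((m : ZMod 3), (3 : ZMod 5)) ≠ ((m : ZMod 3), 1) := fun h => absurd (Prod.mk.inj h).2 (by decide)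
      obtain ⟨d0, hd0, t0'⟩ := drun_vis R n X Y i0 j0 (t := 0) (d := .idle) (c := 0) rfl
        (by rw [x0, y0]; exact d31) (hnn _)
      simp only [vstep, resync, x0, y0, and_self, if_true, Option.some.injEq] at hd0
      rw [Nat.zero_mul]
      rw [← hd0] at t0'
      exact t0'
    | succ k ih => exact (round k ih).2
  intro k
  exact ⟨main k, (round k (main k)).1⟩

end Pool.Agent.H390.DL
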